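import Pool.Agent.Y883.GJ.Stm3
import Pool.Agent.Y697.GJ.LiftC

/-!
# Project GJ (helper883), jobs TLIFT and TPARS: lifting and Parseval for the ternary sum
-/

set_option autoImplicit false

namespace Pool.Agent.Y730.GJ

open Finset
open Pool.Agent.H807R2.Dav (ee ee_add ee_add_int ee_int ee_pow ee_zero norm_ee)
open Pool.Agent.Y883.GJ
open Pool.Agent.Y697.GJ (ph ph_nat ph_add norm_ph cl_ph cl_fib geo_sum conj_ee)

section TF

open Classical in
/-- sums over triples with a linear condition -/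
noncomputable def TF {X1 X2 X3 R : Type} [AddCommMonoid R] (S1 : Finset X1) (S2 : Finset X2)
    (S3 : Finset X3) (w1 : X1 → R) (w2 : X2 → R) (w3 : X3 → R) (d : R) (A : X1 → ℂ) (B : X2 → ℂ)
    (C : X3 → ℂ) : ℂ :=
  ∑ x1 ∈ S1, ∑ x2 ∈ S2, ∑ x3 ∈ S3, if w1 x1 + w2 x2 + w3 x3 = d then A x1 * B x2 * C x3 else 0

variable {X1 X2 X3 R : Type} [AddCommMonoid R] {S1 : Finset X1} {S2 : Finset X2}
    {S3 : Finset X3} {w1 : X1 → R} {w2 : X2 → R} {w3 : X3 → R} {d : R} {A : X1 → ℂ} {B : X2 → ℂ}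
    {C : X3 → ℂ}

theorem TF_rot : TF S1 S2 S3 w1 w2 w3 d A B C = TF S2 S3 S1 w2 w3 w1 d B C A := by
  unfold TF
  rw [sum_comm]
  refine sum_congr rfl fun x2 _ => ?_
  rw [sum_comm]
  refine sum_congr rfl fun x3 _ => sum_congr rfl fun x1 _ => ?_
  have h1 : w1 x1 + w2 x2 + w3 x3 = w2 x2 + w3 x3 + w1 x1 := by
    rw [add_assoc, add_comm]
  have h2 : A x1 * B x2 * C x3 = B x2 * C x3 * A x1 := by ring
  rw [h1, h2]

theorem TF_fib [Fintype X1] [DecidableEq X1] {X' : Type} (S' : Finset X') (π : X' → X1)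
    (A' : X' → ℂ) (hA : ∀ x, A x = ∑ x' ∈ S'.filter (fun x' => π x' = x), A' x') :
    TF univ S2 S3 w1 w2 w3 d A B C = TF S' S2 S3 (fun x => w1 (π x)) w2 w3 d A' B C := by
  classical
  unfold TF
  have h1 : ∀ x : X1, ∑ x2 ∈ S2, ∑ x3 ∈ S3,
      (if w1 x + w2 x2 + w3 x3 = d then A x * B x2 * C x3 else 0) =
      ∑ x' ∈ S'.filter (fun x' => π x' = x), ∑ x2 ∈ S2, ∑ x3 ∈ S3,
        (if w1 (π x') + w2 x2 + w3 x3 = d then A' x' * B x2 * C x3 else 0) := by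
    intro x
    have h2 : ∀ x' ∈ S'.filter (fun x' => π x' = x), ∑ x2 ∈ S2, ∑ x3 ∈ S3,
        (if w1 (π x') + w2 x2 + w3 x3 = d then A' x' * B x2 * C x3 else 0) =
        ∑ x2 ∈ S2, ∑ x3 ∈ S3,
        (if w1 x + w2 x2 + w3 x3 = d then A' x' * B x2 * C x3 else 0) := by
      intro x' hx'
      rw [(mem_filter.1 hx').2]
    symm
    rw [sum_congr rfl h2, sum_comm]
    refine sum_congr rfl fun x2 _ => ?_
    rw [sum_comm]
    refine sum_congr rfl fun x3 _ => ?_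
    split_ifs
    · rw [hA, sum_mul, sum_mul]
    · simp
  rw [sum_congr rfl fun x _ => h1 x, sum_fiberwise]

theorem TF_congr {w1' : X1 → R} {w2' : X2 → R} {w3' : X3 → R} {A' : X1 → ℂ} {B' : X2 → ℂ}
    {C' : X3 → ℂ} (h1 : ∀ x ∈ S1, w1 x = w1' x) (h2 : ∀ x ∈ S2, w2 x = w2' x)
    (h3 : ∀ x ∈ S3, w3 x = w3' x)
    (h4 : ∀ x1 ∈ S1, ∀ x2 ∈ S2, ∀ x3 ∈ S3, w1' x1 + w2' x2 + w3' x3 = d →
      A x1 * B x2 * C x3 = A' x1 * B' x2 * C' x3) :
    TF S1 S2 S3 w1 w2 w3 d A B C = TF S1 S2 S3 w1' w2' w3' d A' B' C' := by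
  unfold TF
  refine sum_congr rfl fun x1 k1 => sum_congr rfl fun x2 k2 => sum_congr rfl fun x3 k3 => ?_
  rw [h1 x1 k1, h2 x2 k2, h3 x3 k3]
  split_ifs with h
  · exact h4 x1 k1 x2 k2 x3 k3 h
  · rfl

theorem TF_smul (c : ℂ) : TF S1 S2 S3 w1 w2 w3 d (fun x => c * A x) B C =
    c * TF S1 S2 S3 w1 w2 w3 d A B C := by
  unfold TF
  rw [mul_sum]
  refine sum_congr rfl fun x1 _ => ?_
  rw [mul_sum]
  refine sum_congr rfl fun x2 _ => ?_
  rw [mul_sum]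
  refine sum_congr rfl fun x3 _ => ?_
  split_ifs
  · ring
  · rw [mul_zero]

/-- the sum over the fibre of the residue -/
theorem TF_hom {R' : Type} [AddCommMonoid R'] [Fintype R'] [DecidableEq R] (φ : R' → R)
    (hφ : ∀ x y, φ (x + y) = φ x + φ y)
    {v1 : X1 → R'} {v2 : X2 → R'} {v3 : X3 → R'} :
    TF S1 S2 S3 (fun x => φ (v1 x)) (fun x => φ (v2 x)) (fun x => φ (v3 x)) d A B C =
      ∑ d' ∈ univ.filter (fun d' => φ d' = d), TF S1 S2 S3 v1 v2 v3 d' A B C := by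
  classical
  unfold TF
  symm
  rw [sum_comm]
  refine sum_congr rfl fun x1 _ => ?_
  rw [sum_comm]
  refine sum_congr rfl fun x2 _ => ?_
  rw [sum_comm]
  refine sum_congr rfl fun x3 _ => ?_
  rw [sum_ite_eq]
  by_cases h : φ (v1 x1 + v2 x2 + v3 x3) = d
  · have h' := h
    rw [hφ, hφ] at h'
    have h5 : v1 x1 + v2 x2 + v3 x3 ∈ (univ : Finset R').filter (fun d' => φ d' = d) :=
      mem_filter.2 ⟨mem_univ _, h⟩
    rw [if_pos h5, if_pos h']
  · have h' := h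
    rw [hφ, hφ] at h'
    have h5 : ¬ v1 x1 + v2 x2 + v3 x3 ∈ (univ : Finset R').filter (fun d' => φ d' = d) :=
      fun hh => h (mem_filter.1 hh).2
    rw [if_neg h5, if_neg h']

end TF

/-- the condition in `T3` -/
theorem T3_eq (c1 c2 c3 : ℤ) (k : ℕ) [NeZero (k * c2.natAbs * c3.natAbs)]
    [NeZero (k * c1.natAbs * c3.natAbs)] [NeZero (k * c1.natAbs * c2.natAbs)]
    (d : ZMod (k * c1.natAbs * c2.natAbs * c3.natAbs))
    (A : ZMod (k * c2.natAbs * c3.natAbs) → ℂ) (B : ZMod (k * c1.natAbs * c3.natAbs) → ℂ)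
    (C : ZMod (k * c1.natAbs * c2.natAbs) → ℂ) :
    T3 c1 c2 c3 k d A B C = TF univ univ univ
      (fun x => ((c1 * (x.val : ℤ) : ℤ) : ZMod (k * c1.natAbs * c2.natAbs * c3.natAbs)))
      (fun x => ((c2 * (x.val : ℤ) : ℤ) : ZMod (k * c1.natAbs * c2.natAbs * c3.natAbs)))
      (fun x => ((c3 * (x.val : ℤ) : ℤ) : ZMod (k * c1.natAbs * c2.natAbs * c3.natAbs))) d A B C := by
  unfold T3 TF
  refine sum_congr rfl fun x1 _ => sum_congr rfl fun x2 _ => sum_congr rfl fun x3 _ => ?_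
  have h : ((c1 * (x1.val : ℤ) + c2 * (x2.val : ℤ) + c3 * (x3.val : ℤ) : ℤ) :
        ZMod (k * c1.natAbs * c2.natAbs * c3.natAbs)) =
      ((c1 * (x1.val : ℤ) : ℤ) : ZMod (k * c1.natAbs * c2.natAbs * c3.natAbs)) +
      ((c2 * (x2.val : ℤ) : ℤ) : ZMod (k * c1.natAbs * c2.natAbs * c3.natAbs)) +
      ((c3 * (x3.val : ℤ) : ℤ) : ZMod (k * c1.natAbs * c2.natAbs * c3.natAbs)) := by
    push_cast
    ring
  rw [h]
  by_cases hh : ((c1 * (x1.val : ℤ) : ℤ) : ZMod (k * c1.natAbs * c2.natAbs * c3.natAbs)) +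
      ((c2 * (x2.val : ℤ) : ℤ) : ZMod (k * c1.natAbs * c2.natAbs * c3.natAbs)) +
      ((c3 * (x3.val : ℤ) : ℤ) : ZMod (k * c1.natAbs * c2.natAbs * c3.natAbs)) = d
  · rw [if_pos hh]
    exact (if_pos hh).symm
  · rw [if_neg hh]
    exact (if_neg hh).symm

/-- the value of a multiple is well defined -/
theorem mul_val {Q K : ℕ} (c : ℤ) (hK : (K : ℤ) ∣ c * Q) (n : ℕ) :
    ((c * ((n : ZMod Q).val : ℤ) : ℤ) : ZMod K) = ((c * (n : ℤ) : ℤ) : ZMod K) := by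
  rw [ZMod.val_natCast]
  have h1 : (n : ℤ) = Q * (n / Q : ℕ) + (n % Q : ℕ) := by
    exact_mod_cast (Nat.div_add_mod n Q).symm
  obtain ⟨e, he⟩ := hK
  have h2 : c * (n : ℤ) = K * (e * (n / Q : ℕ)) + c * (n % Q : ℕ) := by
    calc c * (n : ℤ) = c * Q * (n / Q : ℕ) + c * (n % Q : ℕ) := by
          rw [h1]
          push_cast
          ring
      _ = _ := by
          rw [he]
          ring
  rw [h2]
  push_cast
  rw [ZMod.natCast_self, zero_mul, zero_add]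

/-- the phase at an integer -/
theorem ph_int {M : ℕ} [NeZero M] (h : ℤ) (s : ℤ) :
    ph M h (s : ZMod M) = ee ((s : ℝ) * ((h : ℝ) / M)) := by
  unfold ph
  have hM : (M : ℝ) ≠ 0 := by exact_mod_cast NeZero.ne M
  have h0 : (((s : ZMod M).val : ℤ)) = s % M := ZMod.val_intCast s
  have h1 : (s : ℝ) = (M : ℝ) * ((s / M : ℤ) : ℝ) + (((s : ZMod M).val : ℕ) : ℝ) := by
    have h2 : (s : ℤ) = M * (s / M) + ((s : ZMod M).val : ℤ) := by
      rw [h0]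
      exact (Int.mul_ediv_add_emod s M).symm
    exact_mod_cast congrArg (Int.cast : ℤ → ℝ) h2
  have h3 : (s : ℝ) * ((h : ℝ) / M) =
      (((s : ZMod M).val : ℕ) : ℝ) * ((h : ℝ) / M) + (((s / M) * h : ℤ) : ℝ) := by
    rw [h1]
    push_cast
    field_simp
    ring
  rw [h3, ee_add_int]

/-- the phase of one variable -/
theorem cl_one {M N K : ℕ} [NeZero M] [NeZero K] (F : ℕ → ℂ) (c h : ℤ)
    (hK : K = M * c.natAbs) {α η : ℝ} (hα : α = (h : ℝ) / K + η) (l : ZMod M) :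
    cl M N F (c * α) l = ee ((c : ℝ) * (l.val : ℝ) * ((h : ℝ) / K)) * cl M N F (c * η) l := by
  have hM : (M : ℝ) ≠ 0 := by exact_mod_cast NeZero.ne M
  have hc : (c.natAbs : ℝ) ≠ 0 := by
    have : c.natAbs ≠ 0 := by
      intro h0
      have := NeZero.ne K
      rw [hK, h0, mul_zero] at this
      exact this rfl
    exact_mod_cast this
  have hs : (c : ℝ) = (c.sign : ℝ) * (c.natAbs : ℝ) := by
    have := congrArg (Int.cast : ℤ → ℝ) (Int.sign_mul_natAbs c).symm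
    rw [Int.cast_mul, Int.cast_natCast] at this
    exact this
  have h1 : (c : ℝ) * ((h : ℝ) / K) = ((c.sign * h : ℤ) : ℝ) / M := by
    rw [hs, hK]
    push_cast
    field_simp
  have h2 : (c : ℝ) * α = ((c.sign * h : ℤ) : ℝ) / M + c * η := by
    rw [hα, mul_add, h1]
  rw [cl_ph F (c.sign * h) h2]
  unfold ph
  congr 2
  rw [← h1]
  ring

theorem dvd1 (c1 c2 c3 : ℤ) (k : ℕ) : ((k * c1.natAbs * c2.natAbs * c3.natAbs : ℕ) : ℤ) ∣
    c1 * (k * c2.natAbs * c3.natAbs : ℕ) := by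
  have h : (c1.natAbs : ℤ) ∣ c1 := Int.natAbs_dvd.2 dvd_rfl
  obtain ⟨e, he⟩ := h
  refine ⟨e, ?_⟩
  conv_lhs => rw [he]
  push_cast
  ring

theorem dvd2 (c1 c2 c3 : ℤ) (k : ℕ) : ((k * c1.natAbs * c2.natAbs * c3.natAbs : ℕ) : ℤ) ∣
    c2 * (k * c1.natAbs * c3.natAbs : ℕ) := by
  have h : (c2.natAbs : ℤ) ∣ c2 := Int.natAbs_dvd.2 dvd_rfl
  obtain ⟨e, he⟩ := h
  refine ⟨e, ?_⟩
  conv_lhs => rw [he]
  push_cast
  ring

theorem dvd3 (c1 c2 c3 : ℤ) (k : ℕ) : ((k * c1.natAbs * c2.natAbs * c3.natAbs : ℕ) : ℤ) ∣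
    c3 * (k * c1.natAbs * c2.natAbs : ℕ) := by
  have h : (c3.natAbs : ℤ) ∣ c3 := Int.natAbs_dvd.2 dvd_rfl
  obtain ⟨e, he⟩ := h
  refine ⟨e, ?_⟩
  conv_lhs => rw [he]
  push_cast
  ring

/-- **TLIFT** -/
theorem tLift : TLiftStm := by
  intro c1 c2 c3 k _ _ _ _ _ _ _ P1 P2 P3 G1 G2 G3 h d α η hα
  obtain ⟨K, hK⟩ : ∃ K, K = k * c1.natAbs * c2.natAbs * c3.natAbs := ⟨_, rfl⟩
  have hd1 : 1 * c2.natAbs * c3.natAbs ∣ k * c2.natAbs * c3.natAbs := ⟨k, by ring⟩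
  have hd2 : 1 * c1.natAbs * c3.natAbs ∣ k * c1.natAbs * c3.natAbs := ⟨k, by ring⟩
  have hd3 : 1 * c1.natAbs * c2.natAbs ∣ k * c1.natAbs * c2.natAbs := ⟨k, by ring⟩
  have hd0 : 1 * c1.natAbs * c2.natAbs * c3.natAbs ∣ k * c1.natAbs * c2.natAbs * c3.natAbs :=
    ⟨k, by ring⟩
  have hv : ∀ {Q M : ℕ} [NeZero M] (hd : Q ∣ M) (x : ZMod M),
      ZMod.castHom hd (ZMod Q) x = ((x.val : ℕ) : ZMod Q) := by
    intro Q M _ hd x
    rw [ZMod.natCast_val, ZMod.castHom_apply]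
  rw [T3_eq,
    TF_fib univ (ZMod.castHom hd1 (ZMod _)) _ (fun x => cl_fib (ZMod.castHom hd1 (ZMod _)) G1 _ x),
    TF_rot,
    TF_fib univ (ZMod.castHom hd2 (ZMod _)) _ (fun x => cl_fib (ZMod.castHom hd2 (ZMod _)) G2 _ x),
    TF_rot,
    TF_fib univ (ZMod.castHom hd3 (ZMod _)) _ (fun x => cl_fib (ZMod.castHom hd3 (ZMod _)) G3 _ x),
    TF_rot]
  have hw : ∀ {Q M : ℕ} [NeZero M] (c : ℤ) (hd : Q ∣ M)
      (hc : ((1 * c1.natAbs * c2.natAbs * c3.natAbs : ℕ) : ℤ) ∣ c * Q) (x : ZMod M),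
      ((c * ((ZMod.castHom hd (ZMod Q) x).val : ℤ) : ℤ) :
        ZMod (1 * c1.natAbs * c2.natAbs * c3.natAbs)) =
      ZMod.castHom hd0 (ZMod _) ((c * (x.val : ℤ) : ℤ) :
        ZMod (k * c1.natAbs * c2.natAbs * c3.natAbs)) := by
    intro Q M _ c hd hc x
    rw [hv hd x, mul_val c hc, map_intCast]
  have e1 := TF_congr (S1 := (univ : Finset (ZMod (k * c2.natAbs * c3.natAbs))))
    (S2 := (univ : Finset (ZMod (k * c1.natAbs * c3.natAbs))))
    (S3 := (univ : Finset (ZMod (k * c1.natAbs * c2.natAbs))))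
    (d := (d : ZMod (1 * c1.natAbs * c2.natAbs * c3.natAbs)))
    (A := cl _ P1 G1 (c1 * α)) (B := cl _ P2 G2 (c2 * α)) (C := cl _ P3 G3 (c3 * α))
    (A' := cl _ P1 G1 (c1 * α)) (B' := cl _ P2 G2 (c2 * α)) (C' := cl _ P3 G3 (c3 * α))
    (fun x _ => hw c1 hd1 (dvd1 c1 c2 c3 1) x) (fun x _ => hw c2 hd2 (dvd2 c1 c2 c3 1) x)
    (fun x _ => hw c3 hd3 (dvd3 c1 c2 c3 1) x) (fun _ _ _ _ _ _ _ => rfl)
  refine (congrArg norm (e1.trans (TF_hom (ZMod.castHom hd0 (ZMod _))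
    (fun x y => map_add _ x y)))).le.trans ?_
  refine (norm_sum_le _ _).trans (le_of_eq ?_)
  refine sum_congr ?_ fun d' _ => ?_
  · ext d'
    simp only [mem_filter, mem_univ, true_and, hv hd0 d']
  · rw [T3_eq]
    have e2 : ∀ x1 ∈ (univ : Finset (ZMod (k * c2.natAbs * c3.natAbs))),
        ∀ x2 ∈ (univ : Finset (ZMod (k * c1.natAbs * c3.natAbs))),
        ∀ x3 ∈ (univ : Finset (ZMod (k * c1.natAbs * c2.natAbs))),
        ((c1 * (x1.val : ℤ) : ℤ) : ZMod (k * c1.natAbs * c2.natAbs * c3.natAbs)) +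
        ((c2 * (x2.val : ℤ) : ℤ) : ZMod (k * c1.natAbs * c2.natAbs * c3.natAbs)) +
        ((c3 * (x3.val : ℤ) : ℤ) : ZMod (k * c1.natAbs * c2.natAbs * c3.natAbs)) = d' →
        cl _ P1 G1 (c1 * α) x1 * cl _ P2 G2 (c2 * α) x2 * cl _ P3 G3 (c3 * α) x3 =
        (ph _ h d' * cl _ P1 G1 (c1 * η) x1) * cl _ P2 G2 (c2 * η) x2 *
          cl _ P3 G3 (c3 * η) x3 := by
      intro x1 _ x2 _ x3 _ hx
      have h3 : ((c1 * (x1.val : ℤ) + c2 * (x2.val : ℤ) + c3 * (x3.val : ℤ) : ℤ) :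
          ZMod (k * c1.natAbs * c2.natAbs * c3.natAbs)) = d' := by
        rw [← hx]
        push_cast
        ring
      rw [cl_one G1 c1 h (by ring) hα, cl_one G2 c2 h (by ring) hα, cl_one G3 c3 h (by ring) hα,
        ← h3, ph_int]
      have h4 : ee (((c1 * (x1.val : ℤ) + c2 * (x2.val : ℤ) + c3 * (x3.val : ℤ) : ℤ) : ℝ) *
          ((h : ℝ) / (k * c1.natAbs * c2.natAbs * c3.natAbs : ℕ))) =
          ee ((c1 : ℝ) * (x1.val : ℝ) * ((h : ℝ) / (k * c1.natAbs * c2.natAbs * c3.natAbs : ℕ))) *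
          ee ((c2 : ℝ) * (x2.val : ℝ) * ((h : ℝ) / (k * c1.natAbs * c2.natAbs * c3.natAbs : ℕ))) *
          ee ((c3 : ℝ) * (x3.val : ℝ) *
            ((h : ℝ) / (k * c1.natAbs * c2.natAbs * c3.natAbs : ℕ))) := by
        rw [← ee_add, ← ee_add]
        congr 1
        push_cast
        ring
      rw [h4]
      ring
    rw [TF_congr (fun _ _ => rfl) (fun _ _ => rfl) (fun _ _ => rfl) e2]
    rw [TF_smul, norm_mul, norm_ph, one_mul]

/-- a twisted sum, in terms of the variable -/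
theorem T3_sum (c1 c2 c3 : ℤ) [NeZero (1 * c2.natAbs * c3.natAbs)]
    [NeZero (1 * c1.natAbs * c3.natAbs)] [NeZero (1 * c1.natAbs * c2.natAbs)]
    (P1 P2 P3 : ℕ) (G1 G2 G3 : ℕ → ℂ) (d : ℤ) (β : ℝ) :
    T3 c1 c2 c3 1 (d : ZMod (1 * c1.natAbs * c2.natAbs * c3.natAbs))
      (cl _ P1 G1 (c1 * β)) (cl _ P2 G2 (c2 * β)) (cl _ P3 G3 (c3 * β)) =
    TF (Icc 1 P1) (Icc 1 P2) (Icc 1 P3)
      (fun n : ℕ => ((c1 * (n : ℤ) : ℤ) : ZMod (1 * c1.natAbs * c2.natAbs * c3.natAbs)))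
      (fun n : ℕ => ((c2 * (n : ℤ) : ℤ) : ZMod (1 * c1.natAbs * c2.natAbs * c3.natAbs)))
      (fun n : ℕ => ((c3 * (n : ℤ) : ℤ) : ZMod (1 * c1.natAbs * c2.natAbs * c3.natAbs)))
      (d : ZMod (1 * c1.natAbs * c2.natAbs * c3.natAbs))
      (fun n => G1 n * ee (n * (c1 * β))) (fun n => G2 n * ee (n * (c2 * β)))
      (fun n => G3 n * ee (n * (c3 * β))) := by
  rw [T3_eq,
    TF_fib (A := cl _ P1 G1 (c1 * β)) (Icc 1 P1)
      (fun n : ℕ => (n : ZMod (1 * c2.natAbs * c3.natAbs)))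
      (fun n => G1 n * ee (n * (c1 * β))) (fun x => rfl),
    TF_rot,
    TF_fib (A := cl _ P2 G2 (c2 * β)) (Icc 1 P2)
      (fun n : ℕ => (n : ZMod (1 * c1.natAbs * c3.natAbs)))
      (fun n => G2 n * ee (n * (c2 * β))) (fun x => rfl),
    TF_rot,
    TF_fib (A := cl _ P3 G3 (c3 * β)) (Icc 1 P3)
      (fun n : ℕ => (n : ZMod (1 * c1.natAbs * c2.natAbs)))
      (fun n => G3 n * ee (n * (c3 * β))) (fun x => rfl),
    TF_rot]
  exact TF_congr (fun n _ => mul_val c1 (dvd1 c1 c2 c3 1) n)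
    (fun n _ => mul_val c2 (dvd2 c1 c2 c3 1) n) (fun n _ => mul_val c3 (dvd3 c1 c2 c3 1) n)
    (fun _ _ _ _ _ _ _ => rfl)

/-- **TPARS**, first part -/
theorem tPars1 (c1 c2 c3 d : ℤ) [NeZero (1 * c2.natAbs * c3.natAbs)]
    [NeZero (1 * c1.natAbs * c3.natAbs)] [NeZero (1 * c1.natAbs * c2.natAbs)]
    (P1 P2 P3 M : ℕ) (G1 G2 G3 : ℕ → ℂ)
    (hM : c1.natAbs * P1 + c2.natAbs * P2 + c3.natAbs * P3 + d.natAbs <
      M * (c1.natAbs * c2.natAbs * c3.natAbs)) :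
    (M : ℝ) * ‖SS3 c1 c2 c3 d P1 P2 P3 G1 G2 G3‖ ≤ ∑ t ∈ range M,
      ‖T3 c1 c2 c3 1 (d : ZMod (1 * c1.natAbs * c2.natAbs * c3.natAbs))
        (cl _ P1 G1 (c1 * ((t : ℝ) / (M * (c1.natAbs * c2.natAbs * c3.natAbs) : ℕ))))
        (cl _ P2 G2 (c2 * ((t : ℝ) / (M * (c1.natAbs * c2.natAbs * c3.natAbs) : ℕ))))
        (cl _ P3 G3 (c3 * ((t : ℝ) / (M * (c1.natAbs * c2.natAbs * c3.natAbs) : ℕ))))‖ := by
  classical
  obtain ⟨Q, hQ⟩ : ∃ Q, Q = c1.natAbs * c2.natAbs * c3.natAbs := ⟨_, rfl⟩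
  rw [← hQ] at hM ⊢
  have hMQ : 0 < M * Q := by omega
  have hM0 : M ≠ 0 := by
    rintro rfl
    simp at hMQ
  have hQ0 : Q ≠ 0 := by
    rintro rfl
    simp at hMQ
  have hMr : (M : ℝ) ≠ 0 := by exact_mod_cast hM0
  have hQr : (Q : ℝ) ≠ 0 := by exact_mod_cast hQ0
  have key : ((M : ℝ) : ℂ) * SS3 c1 c2 c3 d P1 P2 P3 G1 G2 G3 =
      ∑ t ∈ range M, ee (-(d : ℝ) * ((t : ℝ) / (M * Q : ℕ))) *
        T3 c1 c2 c3 1 (d : ZMod (1 * c1.natAbs * c2.natAbs * c3.natAbs))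
        (cl _ P1 G1 (c1 * ((t : ℝ) / (M * Q : ℕ))))
        (cl _ P2 G2 (c2 * ((t : ℝ) / (M * Q : ℕ))))
        (cl _ P3 G3 (c3 * ((t : ℝ) / (M * Q : ℕ)))) := by
    have e1 : ∀ t ∈ range M, ee (-(d : ℝ) * ((t : ℝ) / (M * Q : ℕ))) *
        T3 c1 c2 c3 1 (d : ZMod (1 * c1.natAbs * c2.natAbs * c3.natAbs))
        (cl _ P1 G1 (c1 * ((t : ℝ) / (M * Q : ℕ))))
        (cl _ P2 G2 (c2 * ((t : ℝ) / (M * Q : ℕ))))
        (cl _ P3 G3 (c3 * ((t : ℝ) / (M * Q : ℕ)))) =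
        ∑ x ∈ Icc 1 P1, ∑ y ∈ Icc 1 P2, ∑ z ∈ Icc 1 P3,
          if (Q : ℤ) ∣ c1 * (x : ℕ) + c2 * (y : ℕ) + c3 * (z : ℕ) - d then
            G1 x * G2 y * G3 z *
              ee (((c1 * (x : ℕ) + c2 * (y : ℕ) + c3 * (z : ℕ) - d : ℤ) : ℝ) *
                ((t : ℝ) / (M * Q : ℕ))) else 0 := by
      intro t _
      rw [T3_sum]
      unfold TF
      rw [mul_sum]
      refine sum_congr rfl fun x _ => ?_
      rw [mul_sum]
      refine sum_congr rfl fun y _ => ?_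
      rw [mul_sum]
      refine sum_congr rfl fun z _ => ?_
      have h1 : (((c1 * (x : ℤ) : ℤ) : ZMod (1 * c1.natAbs * c2.natAbs * c3.natAbs)) +
          ((c2 * (y : ℤ) : ℤ) : ZMod (1 * c1.natAbs * c2.natAbs * c3.natAbs)) +
          ((c3 * (z : ℤ) : ℤ) : ZMod (1 * c1.natAbs * c2.natAbs * c3.natAbs)) =
          (d : ZMod (1 * c1.natAbs * c2.natAbs * c3.natAbs))) ↔
          (Q : ℤ) ∣ c1 * (x : ℕ) + c2 * (y : ℕ) + c3 * (z : ℕ) - d := by
        rw [← Int.cast_add, ← Int.cast_add, ← sub_eq_zero, ← Int.cast_sub,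
          ZMod.intCast_zmod_eq_zero_iff_dvd, hQ, one_mul]
      by_cases h2 : (Q : ℤ) ∣ c1 * (x : ℕ) + c2 * (y : ℕ) + c3 * (z : ℕ) - d
      · rw [if_pos (h1.2 h2), if_pos h2]
        have h3 : ee (((c1 * (x : ℕ) + c2 * (y : ℕ) + c3 * (z : ℕ) - d : ℤ) : ℝ) *
            ((t : ℝ) / (M * Q : ℕ))) = ee (-(d : ℝ) * ((t : ℝ) / (M * Q : ℕ))) *
            (ee ((x : ℝ) * (c1 * ((t : ℝ) / (M * Q : ℕ)))) *
              ee ((y : ℝ) * (c2 * ((t : ℝ) / (M * Q : ℕ)))) *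
              ee ((z : ℝ) * (c3 * ((t : ℝ) / (M * Q : ℕ))))) := by
          rw [← ee_add, ← ee_add, ← ee_add]
          congr 1
          push_cast
          ring
        rw [h3]
        ring
      · rw [if_neg (fun h => h2 (h1.1 h)), if_neg h2, mul_zero]
    rw [sum_congr rfl e1, sum_comm]
    unfold SS3
    rw [mul_sum]
    refine sum_congr rfl fun x hx => ?_
    rw [mul_sum, sum_comm]
    refine sum_congr rfl fun y hy => ?_
    rw [mul_sum, sum_comm]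
    refine sum_congr rfl fun z hz => ?_
    rw [mem_Icc] at hx hy hz
    by_cases h0 : c1 * (x : ℕ) + c2 * (y : ℕ) + c3 * (z : ℕ) = d
    · rw [if_pos h0]
      have h1 : c1 * (x : ℕ) + c2 * (y : ℕ) + c3 * (z : ℕ) - d = 0 := by omega
      simp only [h1, dvd_zero, if_true, Int.cast_zero, zero_mul, ee_zero, mul_one]
      rw [sum_const, card_range, nsmul_eq_mul]
      push_cast
      ring
    · rw [if_neg h0, mul_zero]
      by_cases h2 : (Q : ℤ) ∣ c1 * (x : ℕ) + c2 * (y : ℕ) + c3 * (z : ℕ) - d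
      · obtain ⟨n, hn⟩ := h2
        have h3 : ¬ (M : ℤ) ∣ n := by
          rintro ⟨j, hj⟩
          have hj0 : j ≠ 0 := by
            rintro rfl
            rw [hj, mul_zero, mul_zero] at hn
            omega
          have h4 : (M * Q : ℕ) ≤ (c1 * (x : ℕ) + c2 * (y : ℕ) + c3 * (z : ℕ) - d).natAbs := by
            rw [hn, hj, Int.natAbs_mul, Int.natAbs_mul, Int.natAbs_natCast, Int.natAbs_natCast]
            have : 1 ≤ j.natAbs := Int.natAbs_pos.2 hj0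
            calc M * Q = Q * (M * 1) := by ring
              _ ≤ Q * (M * j.natAbs) := Nat.mul_le_mul_left _ (Nat.mul_le_mul_left _ this)
          have h5 : (c1 * (x : ℕ) + c2 * (y : ℕ) + c3 * (z : ℕ) - d).natAbs ≤
              c1.natAbs * P1 + c2.natAbs * P2 + c3.natAbs * P3 + d.natAbs := by
            have k1 : (c1 * (x : ℕ)).natAbs ≤ c1.natAbs * P1 := by
              rw [Int.natAbs_mul, Int.natAbs_natCast]
              exact Nat.mul_le_mul_left _ hx.2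
            have k2 : (c2 * (y : ℕ)).natAbs ≤ c2.natAbs * P2 := by
              rw [Int.natAbs_mul, Int.natAbs_natCast]
              exact Nat.mul_le_mul_left _ hy.2
            have k3 : (c3 * (z : ℕ)).natAbs ≤ c3.natAbs * P3 := by
              rw [Int.natAbs_mul, Int.natAbs_natCast]
              exact Nat.mul_le_mul_left _ hz.2
            omega
          omega
        have h6 : (Q : ℤ) ∣ c1 * (x : ℕ) + c2 * (y : ℕ) + c3 * (z : ℕ) - d := ⟨n, hn⟩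
        have h7 : ∀ t ∈ range M, (if (Q : ℤ) ∣ c1 * (x : ℕ) + c2 * (y : ℕ) + c3 * (z : ℕ) - d then
            G1 x * G2 y * G3 z *
              ee (((c1 * (x : ℕ) + c2 * (y : ℕ) + c3 * (z : ℕ) - d : ℤ) : ℝ) *
                ((t : ℝ) / (M * Q : ℕ))) else 0) =
            G1 x * G2 y * G3 z * ee ((n : ℝ) * ((t : ℝ) / M)) := by
          intro t _
          rw [if_pos h6, hn]
          congr 2
          push_cast
          field_simp
        rw [sum_congr rfl h7, ← mul_sum, geo_sum hM0, if_neg h3, mul_zero]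
      · simp only [if_neg h2, sum_const_zero]
  have h1 : (M : ℝ) * ‖SS3 c1 c2 c3 d P1 P2 P3 G1 G2 G3‖ =
      ‖((M : ℝ) : ℂ) * SS3 c1 c2 c3 d P1 P2 P3 G1 G2 G3‖ := by
    rw [norm_mul, Complex.norm_real, Real.norm_natCast]
  rw [h1, key]
  refine (norm_sum_le _ _).trans (le_of_eq ?_)
  refine sum_congr rfl fun t _ => ?_
  rw [norm_mul, norm_ee, one_mul]

/-- Parseval -/
theorem parsG (M : ℕ) (S : Finset ℕ) (c : ℕ → ℂ) (e : ℕ → ℕ → ℂ)
    (he : ∀ n ∈ S, ∀ m ∈ S, ∑ t ∈ range M, e t n * (starRingEnd ℂ) (e t m) =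
      if n = m then (M : ℂ) else 0) :
    ∑ t ∈ range M, ‖∑ n ∈ S, c n * e t n‖ ^ 2 = (M : ℝ) * ∑ n ∈ S, ‖c n‖ ^ 2 := by
  have h1 : ∀ z : ℂ, ((‖z‖ ^ 2 : ℝ) : ℂ) = z * (starRingEnd ℂ) z := by
    intro z
    rw [Complex.mul_conj, Complex.normSq_eq_norm_sq]
  have h2 : ((∑ t ∈ range M, ‖∑ n ∈ S, c n * e t n‖ ^ 2 : ℝ) : ℂ) =
      (((M : ℝ) * ∑ n ∈ S, ‖c n‖ ^ 2 : ℝ) : ℂ) := by
    rw [Complex.ofReal_sum, Complex.ofReal_mul, Complex.ofReal_sum]
    have h3 : ∀ t ∈ range M, ((‖∑ n ∈ S, c n * e t n‖ ^ 2 : ℝ) : ℂ) =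
        ∑ n ∈ S, ∑ m ∈ S, c n * (starRingEnd ℂ) (c m) * (e t n * (starRingEnd ℂ) (e t m)) := by
      intro t _
      rw [h1, map_sum, sum_mul_sum]
      refine sum_congr rfl fun n _ => sum_congr rfl fun m _ => ?_
      rw [map_mul]
      ring
    rw [sum_congr rfl h3, sum_comm, mul_sum]
    refine sum_congr rfl fun n hn => ?_
    rw [sum_comm]
    have h4 : ∀ m ∈ S, ∑ t ∈ range M, c n * (starRingEnd ℂ) (c m) *
          (e t n * (starRingEnd ℂ) (e t m)) =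
        if n = m then c n * (starRingEnd ℂ) (c m) * M else 0 := by
      intro m hm
      rw [← mul_sum, he n hn m hm]
      split_ifs
      · rfl
      · rw [mul_zero]
    rw [sum_congr rfl h4, sum_ite_eq, if_pos hn, h1]
    push_cast
    ring
  exact_mod_cast h2

/-- **TPARS**, second part -/
theorem tPars2 (c : ℤ) (k q P M : ℕ) [NeZero (k * q)] (F : ℕ → ℂ) (hk : 1 ≤ k) (hq : 1 ≤ q)
    (hM : 1 ≤ M) (hc : c ≠ 0) (hP : P ≤ M * q) :
    ∑ t ∈ range M, ∑ l : ZMod (k * q),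
      ‖cl (k * q) P F (c * ((t : ℝ) / (M * (c.natAbs * q) : ℕ))) l‖ ^ 2 =
      M * ∑ n ∈ Icc 1 P, ‖F n‖ ^ 2 := by
  classical
  have hM0 : M ≠ 0 := by omega
  have hMr : (M : ℝ) ≠ 0 := by exact_mod_cast hM0
  have hqr : (q : ℝ) ≠ 0 := by
    have : q ≠ 0 := by omega
    exact_mod_cast this
  have hcr : (c.natAbs : ℝ) ≠ 0 := by
    have : c.natAbs ≠ 0 := by omega
    exact_mod_cast this
  have hs : (c : ℝ) = (c.sign : ℝ) * (c.natAbs : ℝ) := by
    have := congrArg (Int.cast : ℤ → ℝ) (Int.sign_mul_natAbs c).symm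
    rw [Int.cast_mul, Int.cast_natCast] at this
    exact this
  have h1 : ∀ l : ZMod (k * q),
      ∑ t ∈ range M, ‖cl (k * q) P F (c * ((t : ℝ) / (M * (c.natAbs * q) : ℕ))) l‖ ^ 2 =
      (M : ℝ) * ∑ n ∈ (Icc 1 P).filter (fun n : ℕ => (n : ZMod (k * q)) = l), ‖F n‖ ^ 2 := by
    intro l
    unfold cl
    refine parsG M _ F (fun t n => ee ((n : ℝ) * (c * ((t : ℝ) / (M * (c.natAbs * q) : ℕ))))) ?_
    intro n hn m hm
    rw [mem_filter, mem_Icc] at hn hm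
    have h2 : ((k * q : ℕ) : ℤ) ∣ (n : ℤ) - m := by
      have h3 : ((m : ℤ) : ZMod (k * q)) = ((n : ℤ) : ZMod (k * q)) := by
        rw [Int.cast_natCast, Int.cast_natCast, hn.2, hm.2]
      exact (ZMod.intCast_eq_intCast_iff_dvd_sub _ _ _).1 h3
    obtain ⟨j, hj⟩ := h2
    have h4 : ∀ t ∈ range M, ee ((n : ℝ) * (c * ((t : ℝ) / (M * (c.natAbs * q) : ℕ)))) *
        (starRingEnd ℂ) (ee ((m : ℝ) * (c * ((t : ℝ) / (M * (c.natAbs * q) : ℕ))))) =
        ee (((c.sign * (k * j) : ℤ) : ℝ) * ((t : ℝ) / M)) := by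
      intro t _
      rw [conj_ee, ← ee_add]
      congr 1
      have h5 : (n : ℝ) = m + k * q * j := by
        have : (n : ℤ) = m + k * q * j := by
          have := hj
          push_cast at this
          omega
        exact_mod_cast congrArg (Int.cast : ℤ → ℝ) this
      rw [h5, hs]
      push_cast
      field_simp
      ring
    rw [sum_congr rfl h4, geo_sum hM0]
    by_cases hnm : n = m
    · have h6 : j = 0 := by
        rw [hnm, sub_self] at hj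
        have h7 : ((k * q : ℕ) : ℤ) ≠ 0 := by exact_mod_cast NeZero.ne (k * q)
        rcases mul_eq_zero.1 hj.symm with h | h
        · exact absurd h h7
        · exact h
      rw [if_pos hnm, h6, mul_zero, mul_zero, if_pos (dvd_zero _)]
    · rw [if_neg hnm, if_neg]
      rintro ⟨i, hi⟩
      have hj0 : j ≠ 0 := by
        rintro rfl
        rw [mul_zero] at hj
        omega
      have hi0 : i ≠ 0 := by
        rintro rfl
        rw [mul_zero] at hi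
        rcases mul_eq_zero.1 hi with h | h
        · exact hc (Int.sign_eq_zero_iff_zero.1 h)
        · rcases mul_eq_zero.1 h with h | h
          · omega
          · exact hj0 h
      have h8 : (k * j : ℤ).natAbs = M * i.natAbs := by
        have := congrArg Int.natAbs hi
        rwa [Int.natAbs_mul, Int.natAbs_sign_of_ne_zero hc, one_mul, Int.natAbs_mul (M : ℤ) i,
          Int.natAbs_natCast] at this
      have h9 : ((n : ℤ) - m).natAbs = (k * j : ℤ).natAbs * q := by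
        rw [hj, ← Int.natAbs_natCast q, ← Int.natAbs_mul, Int.natAbs_natCast]
        congr 1
        push_cast
        ring
      have h10 : M * q ≤ ((n : ℤ) - m).natAbs := by
        rw [h9, h8]
        have : 1 ≤ i.natAbs := Int.natAbs_pos.2 hi0
        calc M * q = M * 1 * q := by ring
          _ ≤ M * i.natAbs * q := Nat.mul_le_mul_right _ (Nat.mul_le_mul_left _ this)
      omega
  rw [sum_comm, sum_congr rfl fun l _ => h1 l, ← mul_sum]
  congr 1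
  exact sum_fiberwise_of_maps_to (fun n _ => mem_univ _) _

/-- **TPARS** -/
theorem tPars : TParsStm :=
  ⟨fun c1 c2 c3 d _ _ _ P1 P2 P3 M G1 G2 G3 h => tPars1 c1 c2 c3 d P1 P2 P3 M G1 G2 G3 h,
    fun c k q P M _ F hk hq hM hc hP => tPars2 c k q P M F hk hq hM hc hP⟩

end Pool.Agent.Y730.GJ
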